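import Pool.Agent.W223.RD.Stms

/-! D6: few smooth integers -/

namespace Pool.Agent.W929.RD

open Finset Pool.Agent.W223.RD

theorem tD6 : StmtD6 := by
  classical
  refine ⟨Real.exp 64, ?_, ?_⟩
  · have := Real.add_one_le_exp (64 : ℝ)
    linarith
  intro X hX
  have hX0 : 0 < X := (Real.exp_pos _).trans_le hX
  have hL : 64 ≤ Real.log X := (Real.le_log_iff_exp_le hX0).mpr hX
  obtain ⟨y, hy⟩ : ∃ y : ℝ, y = Real.log X ^ ((1 : ℝ) / 3) := ⟨_, rfl⟩
  rw [← hy]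
  have hL0 : 0 ≤ Real.log X := by linarith
  have hy0 : 0 ≤ y := by rw [hy]; positivity
  have hy3 : y ^ 3 = Real.log X := by
    rw [hy, ← Real.rpow_natCast, ← Real.rpow_mul hL0]
    norm_num
  have hy4 : 4 ≤ y := by
    by_contra h
    rw [not_le] at h
    have h1 : y ^ 3 < 4 ^ 3 := pow_lt_pow_left₀ h hy0 (by norm_num)
    norm_num at h1
    linarith
  have hyp : 0 < y := by linarith
  obtain ⟨α, hα⟩ : ∃ α : ℝ, α = 1 / y := ⟨_, rfl⟩
  have hα0 : 0 < α := by rw [hα]; positivity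
  have hα1 : α ≤ 1 := by
    rw [hα, div_le_one hyp]
    linarith
  have hαy : y * α = 1 := by
    rw [hα]
    field_simp
  have hαL : Real.log X * α = y ^ 2 := by
    rw [← hy3, hα]
    field_simp
  set N : ℕ := ⌊Real.exp y⌋₊ with hN
  set P : Finset ℕ := (Icc 1 N).filter Nat.Prime with hP
  set F : Finset ℕ := (Icc 1 ⌊X⌋₊).filter (fun R => Squarefree R ∧ ∀ p : ℕ, p.Prime → p ∣ R →
    (p : ℝ) ≤ Real.exp y) with hF
  have hS : {R : ℕ | 1 ≤ R ∧ (R : ℝ) ≤ X ∧ Squarefree R ∧ ∀ p : ℕ, p.Prime → p ∣ R →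
      (p : ℝ) ≤ Real.exp y} = (F : Set ℕ) := by
    ext R
    simp only [Set.mem_setOf_eq, hF, Finset.coe_filter, Finset.mem_Icc]
    constructor
    · rintro ⟨h1, h2, h3, h4⟩
      exact ⟨⟨h1, Nat.le_floor h2⟩, h3, h4⟩
    · rintro ⟨⟨h1, h2⟩, h3, h4⟩
      exact ⟨h1, (Nat.le_floor_iff hX0.le).mp h2, h3, h4⟩
  rw [hS, Set.ncard_coe_finset]
  have hFm : ∀ R ∈ F, 1 ≤ R ∧ (R : ℝ) ≤ X ∧ Squarefree R ∧ ∀ p : ℕ, p.Prime → p ∣ R →
      (p : ℝ) ≤ Real.exp y := by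
    intro R hR
    have h1 : R ∈ (F : Set ℕ) := hR
    rw [← hS] at h1
    exact h1
  -- Rankin
  have h1 : (F.card : ℝ) ≤ X ^ (1 - α) * ∑ R ∈ F, ∏ p ∈ R.primeFactors, (p : ℝ) ^ (α - 1) := by
    rw [Finset.mul_sum, Finset.card_eq_sum_ones, Nat.cast_sum]
    refine Finset.sum_le_sum fun R hR => ?_
    obtain ⟨a1, a2, a3, -⟩ := hFm R hR
    have hR0 : (0 : ℝ) < R := by exact_mod_cast a1
    rw [Real.finset_prod_rpow _ _ (fun p _ => Nat.cast_nonneg p)]
    have h2 : (∏ p ∈ R.primeFactors, (p : ℝ)) = R := by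
      rw [← Nat.cast_prod, Nat.prod_primeFactors_of_squarefree a3]
    rw [h2]
    have h3 : X ^ (1 - α) * (R : ℝ) ^ (α - 1) = (X / R) ^ (1 - α) := by
      rw [Real.div_rpow hX0.le hR0.le, div_eq_mul_inv, ← Real.rpow_neg hR0.le]
      congr 2
      ring
    rw [h3, Nat.cast_one]
    refine Real.one_le_rpow ?_ (by linarith)
    rw [one_le_div hR0]
    exact a2
  have hinj : Set.InjOn Nat.primeFactors (F : Set ℕ) := by
    intro R hR R' hR' h
    have e1 := Nat.prod_primeFactors_of_squarefree (hFm R hR).2.2.1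
    have e2 := Nat.prod_primeFactors_of_squarefree (hFm R' hR').2.2.1
    rw [← e1, ← e2]
    exact congrArg (fun s : Finset ℕ => ∏ p ∈ s, p) h
  have h2 : ∑ R ∈ F, ∏ p ∈ R.primeFactors, (p : ℝ) ^ (α - 1) ≤
      ∑ T ∈ P.powerset, ∏ p ∈ T, (p : ℝ) ^ (α - 1) := by
    rw [← Finset.sum_image (f := fun T : Finset ℕ => ∏ p ∈ T, (p : ℝ) ^ (α - 1)) hinj]
    refine Finset.sum_le_sum_of_subset_of_nonneg ?_ (fun T _ _ => ?_)
    · intro T hT
      obtain ⟨R, hR, rfl⟩ := Finset.mem_image.mp hT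
      rw [Finset.mem_powerset]
      intro p hp
      have hpp := Nat.prime_of_mem_primeFactors hp
      have hpd := Nat.dvd_of_mem_primeFactors hp
      rw [hP, Finset.mem_filter, Finset.mem_Icc]
      exact ⟨⟨hpp.one_lt.le, Nat.le_floor ((hFm R hR).2.2.2 p hpp hpd)⟩, hpp⟩
    · exact Finset.prod_nonneg fun p _ => Real.rpow_nonneg (Nat.cast_nonneg p) _
  have h3 : ∑ T ∈ P.powerset, ∏ p ∈ T, (p : ℝ) ^ (α - 1) ≤
      Real.exp (∑ p ∈ P, (p : ℝ) ^ (α - 1)) := by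
    rw [← Finset.prod_one_add, Real.exp_sum]
    refine Finset.prod_le_prod (fun p _ => ?_) (fun p _ => ?_)
    · have := Real.rpow_nonneg (Nat.cast_nonneg (α := ℝ) p) (α - 1)
      linarith
    · have := Real.add_one_le_exp ((p : ℝ) ^ (α - 1))
      linarith
  have h4 : ∑ p ∈ P, (p : ℝ) ^ (α - 1) ≤ Real.exp 1 * (1 + y) := by
    have h5 : ∑ p ∈ P, (p : ℝ) ^ (α - 1) ≤ ∑ p ∈ Icc 1 N, Real.exp 1 * ((p : ℝ))⁻¹ := by
      refine (Finset.sum_le_sum_of_subset_of_nonneg (Finset.filter_subset _ _)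
        (fun p _ _ => Real.rpow_nonneg (Nat.cast_nonneg p) _)).trans ?_
      refine Finset.sum_le_sum fun p hp => ?_
      rw [Finset.mem_Icc] at hp
      have hp0 : (0 : ℝ) < p := by exact_mod_cast hp.1
      have hpY : (p : ℝ) ≤ Real.exp y :=
        (Nat.le_floor_iff (Real.exp_pos y).le).mp hp.2
      rw [sub_eq_add_neg, Real.rpow_add hp0, Real.rpow_neg_one]
      refine mul_le_mul_of_nonneg_right ?_ (by positivity)
      calc (p : ℝ) ^ α ≤ (Real.exp y) ^ α := Real.rpow_le_rpow hp0.le hpY hα0.le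
        _ = Real.exp 1 := by rw [← Real.exp_mul, hαy]
    refine h5.trans ?_
    rw [← Finset.mul_sum]
    refine mul_le_mul_of_nonneg_left ?_ (Real.exp_pos 1).le
    have h6 := harmonic_floor_le_one_add_log (Real.exp y) (Real.one_le_exp hy0)
    rw [Real.log_exp, harmonic_eq_sum_Icc] at h6
    push_cast at h6
    exact h6
  have h5 : (F.card : ℝ) ≤ X ^ (1 - α) * Real.exp (Real.exp 1 * (1 + y)) := by
    refine h1.trans (mul_le_mul_of_nonneg_left ?_ (Real.rpow_nonneg hX0.le _))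
    exact h2.trans (h3.trans (Real.exp_le_exp.mpr h4))
  refine h5.trans ?_
  have h6 : X ^ (1 - α) = X * Real.exp (-(y ^ 2)) := by
    rw [Real.rpow_sub hX0, Real.rpow_one, Real.rpow_def_of_pos hX0, hαL, Real.exp_neg,
      div_eq_mul_inv]
  rw [h6, mul_assoc, ← Real.exp_add]
  refine mul_le_mul_of_nonneg_left (Real.exp_le_exp.mpr ?_) hX0.le
  have he : Real.exp 1 < 2.7182818286 := Real.exp_one_lt_d9
  nlinarith

end Pool.Agent.W929.RD
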